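import Pool.Agent.helper27.QR.ML
import Pool.Agent.helper54.QR.MS

/-! # Project QR, module KL: one step of the structure theorem -/

namespace Pool.Agent.helper76.LP

open Finset

section KL
open Classical
variable {G ι : Type*} [CommGroup G]

theorem KL_neg (Γ : ι → Subgroup G) : ∀ (L : List ι) (f : G → ℤ), MDv Γ L f →
    MDv Γ L (fun x => - f x)
  | [], f, h => fun x => by
      have := h x
      simp only [this, neg_zero]
  | i :: L, f, h => fun u hu => by
      have h1 := KL_neg Γ L _ (h u hu)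
      have h2 : (fun x => (fun x => - f x) (u * x) - (fun x => - f x) x)
          = fun x => - (f (u * x) - f x) := by
        funext x; ring
      rw [h2]
      exact h1

variable [Fintype G]

/-- the sizes of the slices add up to at most the size of the support in a big coset -/
theorem KL_sum (Γ : ι → Subgroup G) (i : ι) (L : List ι) (hI : Disjoint (Γ i) (Pl Γ L))
    (f : G → ℤ) (x : G) :
    ∑ u : Γ i, Nat.card {w : Pl Γ L // f ((u : G) * w * x) ≠ 0} ≤ Sl Γ (i :: L) f x := by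
  rw [← Nat.card_sigma]
  unfold Sl
  have hfin : Finite {y : G // y * x⁻¹ ∈ Pl Γ (i :: L) ∧ f y ≠ 0} := inferInstance
  refine Nat.card_le_card_of_injective
    (fun p : (Σ u : Γ i, {w : Pl Γ L // f ((u : G) * w * x) ≠ 0}) =>
      (⟨(p.1 : G) * p.2.1 * x, ?_, p.2.2⟩ : {y : G // y * x⁻¹ ∈ Pl Γ (i :: L) ∧ f y ≠ 0})) ?_
  · rw [mul_inv_cancel_right]
    exact Subgroup.mul_mem_sup p.1.2 p.2.1.2
  · rintro ⟨u, w, hw⟩ ⟨u', w', hw'⟩ h
    simp only [Subtype.mk.injEq, mul_left_inj] at h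
    have := Subgroup.mul_injective_of_disjoint hI (a₁ := (u, w)) (a₂ := (u', w')) h
    simp only [Prod.mk.injEq] at this
    obtain ⟨rfl, rfl⟩ := this
    rfl

/-- the support of a difference of two slices -/
theorem KL_diff (Γ : ι → Subgroup G) (L : List ι) (f : G → ℤ) (x u u' w0 : G)
    (hw0 : w0 ∈ Pl Γ L) :
    Sl Γ L (fun y => f (u' * u⁻¹ * y) - f y) (u * w0 * x) ≤
      Nat.card {w : Pl Γ L // f (u * w * x) ≠ 0} + Nat.card {w : Pl Γ L // f (u' * w * x) ≠ 0} := by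
  rw [← Nat.card_sum]
  unfold Sl
  have key : ∀ y : {y : G // y * (u * w0 * x)⁻¹ ∈ Pl Γ L ∧ f (u' * u⁻¹ * y) - f y ≠ 0},
      u⁻¹ * y.1 * x⁻¹ ∈ Pl Γ L ∧ (f y.1 ≠ 0 ∨ f (u' * u⁻¹ * y.1) ≠ 0) := by
    rintro ⟨y, hy1, hy2⟩
    refine ⟨?_, ?_⟩
    · have h1 := (Pl Γ L).mul_mem hy1 hw0
      have h2 : y * (u * w0 * x)⁻¹ * w0 = u⁻¹ * y * x⁻¹ := by
        rw [mul_inv, mul_inv]
        calc y * (u⁻¹ * w0⁻¹ * x⁻¹) * w0 = u⁻¹ * y * x⁻¹ * (w0⁻¹ * w0) := by
              simp only [mul_assoc, mul_comm, mul_left_comm]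
          _ = _ := by rw [inv_mul_cancel, mul_one]
      rw [h2] at h1
      exact h1
    · by_contra h
      push Not at h
      exact hy2 (by simp only [h.1, h.2, sub_zero])
  have e1 : ∀ y : G, u * (u⁻¹ * y * x⁻¹) * x = y := by intro y; group
  have e2 : ∀ y : G, u' * (u⁻¹ * y * x⁻¹) * x = u' * u⁻¹ * y := by intro y; group
  refine Nat.card_le_card_of_injective
    (fun y => if h : f y.1 ≠ 0 then Sum.inl ⟨⟨u⁻¹ * y.1 * x⁻¹, (key y).1⟩, by
        show f (u * (u⁻¹ * y.1 * x⁻¹) * x) ≠ 0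
        rw [e1]; exact h⟩
      else Sum.inr ⟨⟨u⁻¹ * y.1 * x⁻¹, (key y).1⟩, by
        show f (u' * (u⁻¹ * y.1 * x⁻¹) * x) ≠ 0
        rw [e2]; exact (key y).2.resolve_left h⟩) ?_
  intro y z hyz
  have hcan : ∀ a b : G, u⁻¹ * a * x⁻¹ = u⁻¹ * b * x⁻¹ → a = b := by
    intro a b h
    exact mul_left_cancel (mul_right_cancel h)
  by_cases h1 : f y.1 ≠ 0
  · by_cases h2 : f z.1 ≠ 0
    · simp only [dif_pos h1, dif_pos h2, Sum.inl.injEq, Subtype.mk.injEq] at hyz
      exact Subtype.ext (hcan _ _ hyz)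
    · simp only [dif_pos h1, dif_neg h2] at hyz
      exact absurd hyz (by simp)
  · by_cases h2 : f z.1 ≠ 0
    · simp only [dif_neg h1, dif_pos h2] at hyz
      exact absurd hyz (by simp)
    · simp only [dif_neg h1, dif_neg h2, Sum.inr.injEq, Subtype.mk.injEq] at hyz
      exact Subtype.ext (hcan _ _ hyz)

/-- the majority of the slices coincide -/
theorem KL_slices (Γ : ι → Subgroup G) (i : ι)
    (L : List ι) (hI : Indep Γ (i :: L)) (hL : L ≠ []) (f : G → ℤ) (hf : MDv Γ (i :: L) f)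
    (hS : ∀ j ∈ L, ∀ a, 2 * Sl Γ (i :: L) f a < Nat.card (Γ i) * Nat.card (Γ j)) (x : G) :
    ∃ v : Pl Γ L → ℤ, Fintype.card (Γ i) <
      2 * (univ.filter (fun u : Γ i => ∀ w : Pl Γ L, f ((u : G) * w * x) = v w)).card := by
  obtain ⟨j0, hj0, hmin⟩ : ∃ j ∈ L, ∀ k ∈ L, Nat.card (Γ j) ≤ Nat.card (Γ k) := by
    obtain ⟨j, hj, hm⟩ := L.toFinset.exists_min_image (fun k => Nat.card (Γ k))
      (by obtain ⟨a, ha⟩ := List.exists_mem_of_ne_nil L hL; exact ⟨a, List.mem_toFinset.2 ha⟩)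
    exact ⟨j, List.mem_toFinset.1 hj, fun k hk => hm k (List.mem_toFinset.2 hk)⟩
  have hm1 : ∀ u u' : Γ i, (fun w : Pl Γ L => f ((u : G) * w * x)) ≠
      (fun w : Pl Γ L => f ((u' : G) * w * x)) → Nat.card (Γ j0) ≤
      Nat.card {w : Pl Γ L // f ((u : G) * w * x) ≠ 0} +
        Nat.card {w : Pl Γ L // f ((u' : G) * w * x) ≠ 0} := by
    intro u u' huu
    obtain ⟨w0, hw0⟩ := Function.ne_iff.1 huu
    have hm : MDv Γ L (fun y => f ((u' : G) * (u : G)⁻¹ * y) - f y) :=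
      hf _ ((Γ i).mul_mem u'.2 ((Γ i).inv_mem u.2))
    obtain ⟨k, hk, hk2⟩ := min_support Γ L hI.2 _ hm ((u : G) * w0 * x) (by
      have e : (u' : G) * (u : G)⁻¹ * ((u : G) * w0 * x) = (u' : G) * w0 * x := by group
      show f ((u' : G) * (u : G)⁻¹ * ((u : G) * w0 * x)) - f ((u : G) * w0 * x) ≠ 0
      rw [e]
      exact sub_ne_zero.2 hw0.symm)
    exact ((hmin k hk).trans hk2).trans (KL_diff Γ L f x u u' w0 w0.2)
  obtain ⟨v, hv⟩ := majority (fun u : Γ i => fun w : Pl Γ L => f ((u : G) * w * x))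
    (fun u : Γ i => Nat.card {w : Pl Γ L // f ((u : G) * w * x) ≠ 0}) (Nat.card (Γ j0)) hm1 (by
      have h1 := KL_sum Γ i L hI.1 f x
      have h2 := hS j0 hj0 x
      rw [Nat.card_eq_fintype_card (α := Γ i)] at h2
      omega)
  refine ⟨v, ?_⟩
  have h3 : (univ.filter (fun u : Γ i => ∀ w : Pl Γ L, f ((u : G) * w * x) = v w))
      = (univ.filter (fun u : Γ i => (fun w : Pl Γ L => f ((u : G) * w * x)) = v)) := by
    ext u
    rw [Finset.mem_filter, Finset.mem_filter, funext_iff]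
  rw [h3]
  exact hv

/-- `v` is taken by more than half of the points of the orbit of `x` -/
def KL_maj (H : Subgroup G) (f : G → ℤ) (x : G) (v : ℤ) : Prop :=
  Fintype.card H < 2 * (univ.filter (fun u : H => f ((u : G) * x) = v)).card

theorem KL_maj_unique (H : Subgroup G) (f : G → ℤ) (x : G) (v v' : ℤ) (h : KL_maj H f x v)
    (h' : KL_maj H f x v') : v = v' := by
  by_contra hne
  have hd : Disjoint (univ.filter (fun u : H => f ((u : G) * x) = v))
      (univ.filter (fun u : H => f ((u : G) * x) = v')) := by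
    rw [Finset.disjoint_left]
    intro u hu hu'
    rw [Finset.mem_filter] at hu hu'
    exact hne (hu.2.symm.trans hu'.2)
  have h1 := Finset.card_union_of_disjoint hd
  have h2 := Finset.card_le_univ ((univ.filter (fun u : H => f ((u : G) * x) = v)) ∪
      (univ.filter (fun u : H => f ((u : G) * x) = v')))
  unfold KL_maj at h h'
  omega

theorem KL_maj_smul (H : Subgroup G) (f : G → ℤ) (x : G) (v : ℤ) (u0 : G) (hu0 : u0 ∈ H)
    (h : KL_maj H f x v) : KL_maj H f (u0 * x) v := by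
  unfold KL_maj at h ⊢
  refine lt_of_lt_of_eq h ?_
  congr 1
  refine Finset.card_bij' (fun u _ => u * (⟨u0, hu0⟩ : H)⁻¹) (fun u _ => u * ⟨u0, hu0⟩) ?_ ?_ ?_ ?_
  · intro u hu
    rw [Finset.mem_filter] at hu ⊢
    refine ⟨Finset.mem_univ _, ?_⟩
    have e : ((u * (⟨u0, hu0⟩ : H)⁻¹ : H) : G) * (u0 * x) = u * x := by
      push_cast
      group
    rw [e]; exact hu.2
  · intro u hu
    rw [Finset.mem_filter] at hu ⊢
    refine ⟨Finset.mem_univ _, ?_⟩
    have e : ((u * (⟨u0, hu0⟩ : H) : H) : G) * x = u * (u0 * x) := by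
      push_cast
      group
    rw [e]; exact hu.2
  · intro u _; exact inv_mul_cancel_right _ _
  · intro u _; exact mul_inv_cancel_right _ _

theorem KL_maj_neg (H : Subgroup G) (f : G → ℤ) (x : G) (v : ℤ) (e : G)
    (he : ∀ x, f (e * x) = - f x) (h : KL_maj H f x v) : KL_maj H f (e * x) (-v) := by
  unfold KL_maj at h ⊢
  refine lt_of_lt_of_eq h ?_
  congr 2
  ext u
  simp only [Finset.mem_filter, Finset.mem_univ, true_and]
  have e1 : (u : G) * (e * x) = e * (u * x) := by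
    rw [← mul_assoc, ← mul_assoc, mul_comm (u : G) e]
  rw [e1, he, neg_inj]

/-- double counting along the orbits -/
theorem KL_orbit {A : Type*} [AddCommMonoid A] (H : Subgroup G) (g : G → A) :
    ∑ x : G, ∑ u : H, g ((u : G) * x) = Fintype.card H • ∑ x, g x := by
  rw [Finset.sum_comm]
  have h : ∀ u : H, ∑ x : G, g ((u : G) * x) = ∑ x, g x := fun u =>
    Equiv.sum_comp (Equiv.mulLeft (u : G)) g
  rw [Finset.sum_congr rfl (fun u _ => h u)]
  rw [Finset.sum_const, Finset.card_univ]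

theorem KL_om (n k : ℕ) (h : n < 2 * k) : om n + n ≤ 2 * k := by
  unfold om
  split_ifs with he
  · obtain ⟨r, rfl⟩ := he
    omega
  · omega

/-- the comparison on one orbit -/
theorem KL_gain (H : Subgroup G) (f : G → ℤ) (x : G) (v : ℤ) (h : KL_maj H f x v) :
    (∑ u : H, |f ((u : G) * x) - v|) + (om (Fintype.card H) : ℤ) * |v|
      ≤ ∑ u : H, |f ((u : G) * x)| := by
  set n := (univ.filter (fun u : H => f ((u : G) * x) = v)).card with hn
  have h1 : ∀ u : H, |f ((u : G) * x) - v| + (if f ((u : G) * x) = v then 2 * |v| else 0)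
      ≤ |f ((u : G) * x)| + |v| := by
    intro u
    split_ifs with hu
    · rw [hu, sub_self, abs_zero]; linarith [abs_nonneg v]
    · have := abs_sub (f ((u : G) * x)) v
      linarith
  have h2 := Finset.sum_le_sum (fun u (_ : u ∈ (univ : Finset H)) => h1 u)
  rw [Finset.sum_add_distrib, Finset.sum_add_distrib, ← Finset.sum_filter, Finset.sum_const,
    Finset.sum_const, ← hn, Finset.card_univ, nsmul_eq_mul, nsmul_eq_mul] at h2
  have h3 : (om (Fintype.card H) : ℤ) + Fintype.card H ≤ 2 * n := by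
    have := KL_om _ _ (show Fintype.card H < 2 * n from h)
    exact_mod_cast this
  have h4 : ((om (Fintype.card H) : ℤ) + Fintype.card H) * |v| ≤ 2 * n * |v| :=
    mul_le_mul_of_nonneg_right h3 (abs_nonneg v)
  nlinarith

theorem KL_supp (H : Subgroup G) (f : G → ℤ) (x : G) (v : ℤ) (h : KL_maj H f x v) :
    (univ.filter (fun u : H => f ((u : G) * x) - v ≠ 0)).card
      ≤ (univ.filter (fun u : H => f ((u : G) * x) ≠ 0)).card := by
  by_cases hv : v = 0
  · subst hv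
    simp
  · have h1 : (univ.filter (fun u : H => f ((u : G) * x) = v)) ⊆
        (univ.filter (fun u : H => f ((u : G) * x) ≠ 0)) := by
      intro u hu
      rw [Finset.mem_filter] at hu ⊢
      exact ⟨hu.1, by rw [hu.2]; exact hv⟩
    have h2 := Finset.card_le_card h1
    have h3 := Finset.card_filter_add_card_filter_not (s := (univ : Finset H))
      (fun u : H => f ((u : G) * x) = v)
    have h4 : (univ.filter (fun u : H => ¬ f ((u : G) * x) = v))
        = (univ.filter (fun u : H => f ((u : G) * x) - v ≠ 0)) := by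
      ext u
      simp [sub_eq_zero]
    rw [h4, Finset.card_univ] at h3
    unfold KL_maj at h
    omega

end KL

theorem structure_step {G ι : Type*} [CommGroup G] [Fintype G] (Γ : ι → Subgroup G) (i : ι)
    (L : List ι) (hI : Indep Γ (i :: L)) (hL : L ≠ []) (f : G → ℤ) (hf : MDv Γ (i :: L) f)
    (hS : ∀ j ∈ L, ∀ a, 2 * Sl Γ (i :: L) f a < Nat.card (Γ i) * Nat.card (Γ j)) :
    ∃ ρ : G → ℤ, (∀ u ∈ Γ i, ∀ x, ρ (u * x) = ρ x) ∧ MDv Γ L (fun x => f x - ρ x) ∧
      (∀ e : G, (∀ x, f (e * x) = - f x) → ∀ x, ρ (e * x) = - ρ x) ∧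
      (∀ a, Sl Γ L (fun x => f x - ρ x) a ≤ Sl Γ (i :: L) f a) ∧
      (univ.filter (fun x => f x - ρ x ≠ 0)).card ≤ (univ.filter (fun x => f x ≠ 0)).card ∧
      (((∑ x, |f x - ρ x| : ℤ) : ℚ) +
        (om (Nat.card (Γ i)) : ℚ) * ((∑ x, |ρ x| : ℤ) : ℚ) / (Nat.card (Γ i) : ℚ)
          ≤ ((∑ x, |f x| : ℤ) : ℚ)) := by
  classical
  have hsl := KL_slices Γ i L hI hL f hf hS
  have hex : ∀ x, ∃ v, KL_maj (Γ i) f x v := by
    intro x
    obtain ⟨v, hv⟩ := hsl x
    refine ⟨v 1, lt_of_lt_of_le hv ?_⟩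
    refine Nat.mul_le_mul_left 2 (Finset.card_le_card ?_)
    intro u hu
    rw [Finset.mem_filter] at hu ⊢
    refine ⟨hu.1, ?_⟩
    have := hu.2 1
    simpa using this
  choose ρ hρ using hex
  have hinv : ∀ u ∈ Γ i, ∀ x, ρ (u * x) = ρ x := fun u hu x =>
    KL_maj_unique _ f (u * x) _ _ (hρ (u * x)) (KL_maj_smul _ f x _ u hu (hρ x))
  have hcard : 0 < Fintype.card (Γ i) := Fintype.card_pos
  refine ⟨ρ, hinv, ?_, ?_, ?_, ?_, ?_⟩
  · -- locality
    apply mdv_local
    intro x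
    obtain ⟨v, hv⟩ := hsl x
    obtain ⟨u, hu⟩ : (univ.filter (fun u : Γ i => ∀ w : Pl Γ L, f ((u : G) * w * x) = v w)).Nonempty := by
      rw [← Finset.card_pos]; omega
    rw [Finset.mem_filter] at hu
    refine ⟨fun y => - (f ((u : G) * y) - f y), KL_neg Γ L _ (hf u u.2), ?_⟩
    intro w hw
    have h1 : ρ (w * x) = v ⟨w, hw⟩ := by
      refine KL_maj_unique _ f (w * x) _ _ (hρ (w * x)) (lt_of_lt_of_le hv ?_)
      refine Nat.mul_le_mul_left 2 (Finset.card_le_card ?_)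
      intro u' hu'
      rw [Finset.mem_filter] at hu' ⊢
      refine ⟨hu'.1, ?_⟩
      have := hu'.2 ⟨w, hw⟩
      rw [← mul_assoc]
      exact this
    have h2 := hu.2 ⟨w, hw⟩
    show f (w * x) - ρ (w * x) = - (f ((u : G) * (w * x)) - f (w * x))
    rw [h1, ← h2, mul_assoc]
    ring
  · intro e he x
    exact KL_maj_unique _ f (e * x) _ _ (hρ (e * x)) (KL_maj_neg _ f x _ e he (hρ x))
  · -- supports in cosets
    intro a
    refine le_trans ?_ (KL_sum Γ i L hI.1 f a)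
    rw [← Nat.card_sigma]
    unfold Sl
    have key : ∀ y : {y : G // y * a⁻¹ ∈ Pl Γ L ∧ f y - ρ y ≠ 0},
        ∃ u : Γ i, f ((u : G) * (y.1 * a⁻¹) * a) ≠ 0 := by
      rintro ⟨y, hy1, hy2⟩
      by_contra hcon
      push Not at hcon
      have h0 : ∀ u : Γ i, f ((u : G) * y) = 0 := by
        intro u
        have := hcon u
        rwa [mul_assoc, inv_mul_cancel_right] at this
      have h1 : ρ y = 0 := by
        refine KL_maj_unique _ f y _ _ (hρ y) ?_
        unfold KL_maj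
        rw [Finset.filter_true_of_mem (fun u _ => h0 u), Finset.card_univ]
        omega
      have h2 : f y = 0 := by
        have := h0 1
        simpa using this
      exact hy2 (by rw [h1, h2, sub_zero])
    choose g hg using key
    refine Nat.card_le_card_of_injective
      (fun y => (⟨g y, ⟨y.1 * a⁻¹, y.2.1⟩, hg y⟩ :
        Σ u : Γ i, {w : Pl Γ L // f ((u : G) * w * a) ≠ 0})) ?_
    intro y z hyz
    simp only [Sigma.mk.injEq] at hyz
    obtain ⟨h1, h2⟩ := hyz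
    have h3 : ∀ (u u' : Γ i) (w w' : Pl Γ L) (hw : f ((u : G) * w * a) ≠ 0)
        (hw' : f ((u' : G) * w' * a) ≠ 0), u = u' →
        HEq (⟨w, hw⟩ : {w : Pl Γ L // f ((u : G) * w * a) ≠ 0})
          (⟨w', hw'⟩ : {w : Pl Γ L // f ((u' : G) * w * a) ≠ 0}) → w = w' := by
      rintro u u' w w' hw hw' rfl h
      have := eq_of_heq h
      exact congrArg Subtype.val this
    have h4 := h3 _ _ _ _ _ _ h1 h2
    have h5 : y.1 * a⁻¹ = z.1 * a⁻¹ := congrArg Subtype.val h4
    exact Subtype.ext (mul_right_cancel h5)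
  · -- number of points of the support
    have h1 := KL_orbit (Γ i) (fun x => if f x - ρ x ≠ 0 then 1 else 0)
    have h2 := KL_orbit (Γ i) (fun x => if f x ≠ 0 then 1 else 0)
    have h3 : ∑ x : G, ∑ u : Γ i, (if f ((u : G) * x) - ρ ((u : G) * x) ≠ 0 then 1 else 0)
        ≤ ∑ x : G, ∑ u : Γ i, (if f ((u : G) * x) ≠ 0 then 1 else 0) := by
      refine Finset.sum_le_sum (fun x _ => ?_)
      rw [← Finset.card_filter, ← Finset.card_filter]
      have h4 := KL_supp (Γ i) f x (ρ x) (hρ x)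
      have h5 : (univ.filter (fun u : Γ i => f ((u : G) * x) - ρ ((u : G) * x) ≠ 0))
          = (univ.filter (fun u : Γ i => f ((u : G) * x) - ρ x ≠ 0)) := by
        ext u
        rw [Finset.mem_filter, Finset.mem_filter, hinv u u.2]
      rw [h5]
      exact h4
    rw [h1, h2, ← Finset.card_filter, ← Finset.card_filter, smul_eq_mul, smul_eq_mul] at h3
    exact Nat.le_of_mul_le_mul_left h3 hcard
  · -- the norm
    have h1 := KL_orbit (Γ i) (fun x => |f x - ρ x|)
    have h2 := KL_orbit (Γ i) (fun x => |f x|)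
    have h3 : ∑ x : G, ((∑ u : Γ i, |f ((u : G) * x) - ρ ((u : G) * x)|)
        + (om (Fintype.card (Γ i)) : ℤ) * |ρ x|) ≤ ∑ x : G, ∑ u : Γ i, |f ((u : G) * x)| := by
      refine Finset.sum_le_sum (fun x _ => ?_)
      have h4 := KL_gain (Γ i) f x (ρ x) (hρ x)
      have h5 : ∑ u : Γ i, |f ((u : G) * x) - ρ ((u : G) * x)| =
          ∑ u : Γ i, |f ((u : G) * x) - ρ x| :=
        Finset.sum_congr rfl (fun u _ => by rw [hinv u u.2])
      rw [h5]
      exact h4
    rw [Finset.sum_add_distrib, h1, h2, ← Finset.mul_sum, nsmul_eq_mul, nsmul_eq_mul] at h3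
    have h6 : ((Fintype.card (Γ i) : ℕ) : ℚ) * ((∑ x, |f x - ρ x| : ℤ) : ℚ) +
        (om (Fintype.card (Γ i)) : ℚ) * ((∑ x, |ρ x| : ℤ) : ℚ)
        ≤ ((Fintype.card (Γ i) : ℕ) : ℚ) * ((∑ x, |f x| : ℤ) : ℚ) := by
      exact_mod_cast h3
    rw [Nat.card_eq_fintype_card]
    have h7 : (0 : ℚ) < ((Fintype.card (Γ i) : ℕ) : ℚ) := by exact_mod_cast hcard
    rw [← sub_nonneg] at h6 ⊢
    have h8 : ((∑ x, |f x| : ℤ) : ℚ) - (((∑ x, |f x - ρ x| : ℤ) : ℚ) +
        (om (Fintype.card (Γ i)) : ℚ) * ((∑ x, |ρ x| : ℤ) : ℚ) / ((Fintype.card (Γ i) : ℕ) : ℚ))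
        = (((Fintype.card (Γ i) : ℕ) : ℚ) * ((∑ x, |f x| : ℤ) : ℚ)
          - (((Fintype.card (Γ i) : ℕ) : ℚ) * ((∑ x, |f x - ρ x| : ℤ) : ℚ) +
        (om (Fintype.card (Γ i)) : ℚ) * ((∑ x, |ρ x| : ℤ) : ℚ))) / ((Fintype.card (Γ i) : ℕ) : ℚ) := by
      field_simp
    rw [h8]
    exact div_nonneg h6 h7.le

end Pool.Agent.helper76.LP
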